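import Pool.Agent.Helper95.LN.Stmts

/-! Row PHC of the sheet LN: properties of `et` and `kap`. -/

set_option autoImplicit false

namespace Pool.Agent.Helper48.LN

open MeasureTheory Filter Topology Pool.Agent.Helper95.PW Pool.Agent.Helper95.LN

theorem phc_bt_nonneg (t : ℝ) : 0 ≤ bt t :=
  mul_nonneg (Real.smoothTransition.nonneg _) (Real.smoothTransition.nonneg _)

theorem phc_bt_le_one (t : ℝ) : bt t ≤ 1 :=
  mul_le_one₀ (Real.smoothTransition.le_one _) (Real.smoothTransition.nonneg _)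
    (Real.smoothTransition.le_one _)

theorem phc_bt_left {t : ℝ} (h : t ≤ 1) : bt t = 0 := by
  unfold bt
  rw [Real.smoothTransition.zero_of_nonpos (by linarith), zero_mul]

theorem phc_bt_right {t : ℝ} (h : 2 ≤ t) : bt t = 0 := by
  unfold bt
  rw [Real.smoothTransition.zero_of_nonpos (x := 4 * (2 - t)) (by linarith), mul_zero]

theorem phc_bt_pos {t : ℝ} (h1 : 1 < t) (h2 : t < 2) : 0 < bt t :=
  mul_pos (Real.smoothTransition.pos_of_pos (by linarith))
    (Real.smoothTransition.pos_of_pos (by linarith))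

theorem phc_bt_smooth : ContDiff ℝ (⊤ : ℕ∞) bt := by
  unfold bt
  exact (Real.smoothTransition.contDiff.comp (by fun_prop)).mul
    (Real.smoothTransition.contDiff.comp (by fun_prop))

theorem phc_cb_pos : 0 < cb := by
  unfold cb
  apply intervalIntegral.intervalIntegral_pos_of_pos_on
  · exact (phc_bt_smooth.continuous.pow 2).intervalIntegrable _ _
  · intro x hx
    exact pow_pos (phc_bt_pos hx.1 hx.2) 2
  · norm_num

theorem phc_nr_nonneg (y : R3) : 0 ≤ nr y := Real.sqrt_nonneg _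

theorem phc_nr_cont : Continuous nr := by
  unfold nr
  fun_prop

theorem phc_nr_neg (y : R3) : nr (-y) = nr y := by
  unfold nr
  simp

theorem phc_nr_smul (c : ℝ) (hc : 0 ≤ c) (y : R3) : nr (c • y) = c * nr y := by
  unfold nr
  have h : (c • y) 0 ^ 2 + (c • y) 1 ^ 2 + (c • y) 2 ^ 2 =
      c ^ 2 * (y 0 ^ 2 + y 1 ^ 2 + y 2 ^ 2) := by
    simp only [Pi.smul_apply, smul_eq_mul]
    ring
  rw [h, Real.sqrt_mul (sq_nonneg c), Real.sqrt_sq hc]

theorem phc_norm_le (y : R3) : ‖y‖ ≤ nr y := by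
  rw [pi_norm_le_iff_of_nonneg (phc_nr_nonneg y)]
  intro i
  rw [Real.norm_eq_abs]
  apply Real.abs_le_sqrt
  fin_cases i
  · simp only [Fin.zero_eta]
    nlinarith [sq_nonneg (y 1), sq_nonneg (y 2)]
  · simp only [Fin.mk_one]
    nlinarith [sq_nonneg (y 0), sq_nonneg (y 2)]
  · simp only [Fin.reduceFinMk]
    nlinarith [sq_nonneg (y 0), sq_nonneg (y 1)]

theorem phc_et_out {a : ℝ} (ha : 0 < a) {y : R3} (h : a ≤ nr y) : et a y = 0 := by
  unfold et
  have h1 : a / nr y ≤ 1 := by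
    rw [div_le_one (lt_of_lt_of_le ha h)]
    exact h
  rw [phc_bt_left h1]
  simp

theorem phc_et_in {a : ℝ} (ha : 0 < a) {y : R3} (h : nr y ≤ a / 2) : et a y = 0 := by
  unfold et
  rcases (phc_nr_nonneg y).eq_or_lt with h0 | h0
  · rw [← h0]
    simp
  · have h1 : 2 ≤ a / nr y := by
      rw [le_div_iff₀ h0]
      linarith
    rw [phc_bt_right h1]
    simp

theorem phc_et_nonneg {a : ℝ} (ha : 0 < a) (y : R3) : 0 ≤ et a y := by
  unfold et
  have := phc_cb_pos
  positivity

theorem phc_et_le {a : ℝ} (ha : 0 < a) (y : R3) : et a y ≤ 16 / cb / a ^ 3 := by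
  have hcb := phc_cb_pos
  by_cases h : nr y ≤ a / 2
  · rw [phc_et_in ha h]
    positivity
  · have h2 : a / 2 < nr y := not_le.1 h
    unfold et
    have h3 : bt (a / nr y) ^ 2 ≤ 1 := pow_le_one₀ (phc_bt_nonneg _) (phc_bt_le_one _)
    have h4 : (a / 2) ^ 4 ≤ nr y ^ 4 := pow_le_pow_left₀ (by positivity) h2.le 4
    have h5 : 0 < nr y := by linarith
    calc a * bt (a / nr y) ^ 2 / (cb * nr y ^ 4) ≤ a * 1 / (cb * (a / 2) ^ 4) := by
          gcongr
      _ = 16 / cb / a ^ 3 := by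
          field_simp
          ring

theorem phc_nr_smooth {y : R3} (h : nr y ≠ 0) : ContDiffAt ℝ (⊤ : ℕ∞) nr y := by
  have hq : y 0 ^ 2 + y 1 ^ 2 + y 2 ^ 2 ≠ 0 := by
    intro h0
    apply h
    unfold nr
    rw [h0, Real.sqrt_zero]
  have hp : ContDiff ℝ (⊤ : ℕ∞) (fun y : R3 => y 0 ^ 2 + y 1 ^ 2 + y 2 ^ 2) := by
    fun_prop
  exact hp.contDiffAt.sqrt hq

theorem phc_et_smooth {a : ℝ} (ha : 0 < a) : ContDiff ℝ (⊤ : ℕ∞) (et a) := by
  rw [contDiff_iff_contDiffAt]
  intro y
  by_cases h : nr y < a / 2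
  · have h1 : et a =ᶠ[𝓝 y] fun _ => 0 := by
      have h2 : ∀ᶠ x in 𝓝 y, nr x < a / 2 :=
        (isOpen_lt phc_nr_cont continuous_const).mem_nhds h
      filter_upwards [h2] with x hx
      exact phc_et_in ha hx.le
    exact contDiffAt_const.congr_of_eventuallyEq h1
  · have h0 : 0 < nr y := by
      have := not_lt.1 h
      linarith
    have hn := phc_nr_smooth h0.ne'
    have hcb := phc_cb_pos
    have h1 : ContDiffAt ℝ (⊤ : ℕ∞) (fun x : R3 => bt (a / nr x)) y :=
      phc_bt_smooth.contDiffAt.comp y (contDiffAt_const.div hn h0.ne')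
    have h2 : ContDiffAt ℝ (⊤ : ℕ∞)
        (fun x : R3 => a * bt (a / nr x) ^ 2 / (cb * nr x ^ 4)) y := by
      apply ContDiffAt.div
      · exact contDiffAt_const.mul (h1.pow 2)
      · exact contDiffAt_const.mul (hn.pow 4)
      · positivity
    exact h2

theorem phc_et_supp {a : ℝ} (ha : 0 < a) : HasCompactSupport (et a) := by
  apply HasCompactSupport.intro (isCompact_closedBall (0 : R3) a)
  intro x hx
  apply phc_et_out ha
  rw [Metric.mem_closedBall, dist_zero_right, not_le] at hx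
  exact hx.le.trans (phc_norm_le x)

theorem phc_kap_pos : 0 < kap := by
  unfold kap
  have hn : nr (Pi.single 0 (2 / 3 : ℝ) : R3) = 2 / 3 := by
    unfold nr
    simp only [Pi.single_eq_same, ne_eq, one_ne_zero, not_false_eq_true, Pi.single_eq_of_ne,
      Fin.reduceEq]
    rw [show ((2 / 3 : ℝ) ^ 2 + 0 ^ 2 + 0 ^ 2) = (2 / 3) ^ 2 by ring,
      Real.sqrt_sq (by norm_num)]
  apply Continuous.integral_pos_of_hasCompactSupport_nonneg_nonzero
    (x := (Pi.single 0 (2 / 3 : ℝ) : R3))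
  · exact (phc_et_smooth one_pos).continuous
  · exact phc_et_supp one_pos
  · intro y
    exact phc_et_nonneg one_pos y
  · unfold et
    rw [hn]
    have h1 : 0 < bt (1 / (2 / 3)) := phc_bt_pos (by norm_num) (by norm_num)
    have h2 := phc_cb_pos
    positivity

theorem phc_et_scale {a : ℝ} (ha : 0 < a) (y : R3) :
    et a y = (a ^ 3)⁻¹ * et 1 (a⁻¹ • y) := by
  have hcb := phc_cb_pos
  unfold et
  rw [phc_nr_smul _ (by positivity)]
  rcases (phc_nr_nonneg y).eq_or_lt with h0 | h0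
  · rw [← h0]
    simp
  · have h1 : 1 / (a⁻¹ * nr y) = a / nr y := by
      field_simp
    rw [h1]
    field_simp

theorem phc_et_int {a : ℝ} (ha : 0 < a) : ∫ y, et a y = kap := by
  have h1 : (fun y => et a y) = fun y => (a ^ 3)⁻¹ * et 1 (a⁻¹ • y) :=
    funext fun y => phc_et_scale ha y
  rw [h1, integral_const_mul, Measure.integral_comp_smul volume (et 1) a⁻¹]
  have h2 : Module.finrank ℝ R3 = 3 := by simp
  rw [h2, smul_eq_mul, abs_of_pos (by positivity), inv_pow, inv_inv, ← mul_assoc,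
    inv_mul_cancel₀ (by positivity), one_mul]
  rfl

theorem PHC : ST_PHC := by
  refine ⟨phc_cb_pos, phc_kap_pos, ⟨16 / cb, div_pos (by norm_num) phc_cb_pos,
    fun a y ha => phc_et_le ha y⟩, fun a ha => ⟨phc_et_smooth ha, phc_et_nonneg ha,
    fun y hy => phc_et_out ha hy, fun y hy => phc_et_in ha hy, fun y => ?_, phc_et_int ha⟩⟩
  unfold et
  rw [phc_nr_neg]

end Pool.Agent.Helper48.LN
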